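import Pool.Agent.Helper778.BlockSol

/-!
For every prime `p` an indecomposable irretractable involutive non-degenerate set-theoretic
solution of the Yang-Baxter equation on `ZMod p × ZMod p`, whose fibres over the first coordinate
are blocks of imprimitivity, and for which the equality of Q1 fails.
-/

namespace Pool.Agent.Results.MP_a65784_al.CoordinatesMatter

open Equiv Pool.Agent.Helper778.BlockSol

/-- Q1 read literally, for all coordinates on the blocks, fails for every prime `p`. -/
theorem result : ∀ p : ℕ, p.Prime →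
    ∃ σ : ZMod p × ZMod p → Perm (ZMod p × ZMod p),
      IsSolution σ ∧ Indecomposable σ ∧ Irretractable σ ∧ HasBlocks σ ∧
      ∃ β α, BlockForm σ β α ∧ ∃ y y' z, β y z ≠ β y' z := by
  intro p hp
  have : Fact p.Prime := ⟨hp⟩
  have : NeZero p := ⟨hp.ne_zero⟩
  let π : ZMod p → Perm (ZMod p) := fun y => if y = 0 then Equiv.addRight 1 else 1
  refine ⟨transport (coord 1 π) (sig p), isSolution_transport (isSolution p) _,
    indecomposable_transport (indecomposable p) _, irretractable_transport irretractable _,
    hasBlocks_transport (hasBlocks p) _ _, be 1 π, al 1 π, blockForm 1 π, 0, 1, 0, ?_⟩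
  intro h
  have h1 : be 1 π 0 0 0 = be 1 π 1 0 0 := by rw [h]
  have h2 : be 1 π 0 0 0 = 0 + (π 0).symm 0 := rfl
  have h3 : be 1 π 1 0 0 = 0 + (π 1).symm 0 := rfl
  have h4 : π 0 = Equiv.addRight 1 := if_pos rfl
  have h5 : π 1 = 1 := if_neg one_ne_zero
  rw [h2, h3, h4, h5] at h1
  have h6 : (Equiv.addRight (1 : ZMod p)).symm 0 = 0 + -1 := rfl
  have h7 : (1 : Perm (ZMod p)).symm 0 = 0 := rfl
  rw [h6, h7] at h1
  simp at h1

end Pool.Agent.Results.MP_a65784_al.CoordinatesMatter
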