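import Pool.Agent.Helper778.BlockSol

/-!
For every prime `p ≥ 3` an indecomposable irretractable involutive non-degenerate set-theoretic
solution of the Yang-Baxter equation on `ZMod p × ZMod p`, whose fibres over the first coordinate
are blocks of imprimitivity, and for which the equivalence of Q2 fails in every choice of
coordinates compatible with the blocks.
-/

namespace Pool.Agent.Results.MP_a65784_al.FailsForOddPrimes

open Equiv Pool.Agent.Helper778.BlockSol

/-- Q2 fails for every prime `p ≥ 3`, in every choice of coordinates compatible with the blocks;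
in the given coordinates the equality of Q1 and the implication from right to left of Q2 hold. -/
theorem result : ∀ p : ℕ, p.Prime → 3 ≤ p →
    ∃ σ : ZMod p × ZMod p → Perm (ZMod p × ZMod p),
      IsSolution σ ∧ Indecomposable σ ∧ Irretractable σ ∧ HasBlocks σ ∧
      (∃ β α, BlockForm σ β α ∧ (∀ y y' z, β y z = β y' z) ∧
        (∀ y y' y'' z z', β y z y' = β y z' y'' → α y z y' = α y z' y'') ∧
        ∃ y y' y'' z z', α y z y' = α y z' y'' ∧ β y z y' ≠ β y z' y'') ∧
      ∀ (ρ : Perm (ZMod p)) (π : ZMod p → Perm (ZMod p)),
        ∃ β α, BlockForm (transport (coord ρ π) σ) β α ∧ ¬ Equivalence β α := by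
  intro p hp h3
  have : Fact p.Prime := ⟨hp⟩
  have : NeZero p := ⟨hp.ne_zero⟩
  refine ⟨sig p, isSolution p, indecomposable p, irretractable, hasBlocks p, ?_,
    fun ρ π => ⟨be ρ π, al ρ π, blockForm ρ π, not_equivalence h3 ρ π⟩⟩
  refine ⟨fun _ z => Equiv.addRight z, fun y z y' => Equiv.addRight (-(y' + z - y) ^ 2), ?_, ?_,
    ?_, ?_⟩
  · intro y z y' z'
    simp [sig_apply, sub_eq_add_neg]
  · intro y y' z
    rfl
  · intro y y' y'' z z' h
    simp only [coe_addRight] at h
    simp only [h]
  · refine ⟨0, 0, 0, 1, -1, ?_, ?_⟩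
    · simp
    · simp only [coe_addRight, zero_add]
      intro h
      have h4 : ((2 : ℕ) : ZMod p) = 0 := by
        push_cast
        linear_combination h
      rw [ZMod.natCast_eq_zero_iff] at h4
      have := Nat.le_of_dvd (by norm_num) h4
      omega

end Pool.Agent.Results.MP_a65784_al.FailsForOddPrimes
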